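import Pool.Agent.U722.FF.Stm4
import Pool.Agent.Helper970.V7.Defs
import Pool.Agent.Helper970.V7.P_proj_RM

/-!
# Project LB, package FINI (helper571): subgroups of finite index and the transfer
-/

set_option autoImplicit false

namespace Pool.Agent.U571.LBP

open CategoryTheory V7N
open scoped TensorProduct

attribute [local instance] VN831.viaAdd VN831.viaMod V7N.bcF_additive

section

variable {G U : Type} [Group G] [Ring U] (c : G →* U) (N : Subgroup G)

/-- restriction of scalars -/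
noncomputable abbrev RS : ModuleCat.{0} (MonoidAlgebra ℤ G) ⥤ ModuleCat.{0} (MonoidAlgebra ℤ ↥N) :=
  ModuleCat.restrictScalars (inc N.subtype)

theorem RS_hom : (RS N).PreservesHomology := by
  apply Functor.preservesHomology_of_map_exact
  intro S hS
  rw [CategoryTheory.ShortComplex.ShortExact.moduleCat_exact_iff_function_exact] at hS ⊢
  exact hS

theorem RS_proj : (RS N).PreservesProjectiveObjects := by
  constructor
  intro X hX
  have h1 : Module.Projective (MonoidAlgebra ℤ G) X := (IsProjective.iff_projective _).2 hX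
  obtain ⟨⟨t, ht⟩⟩ := h1
  have h2 : Module.Projective (MonoidAlgebra ℤ ↥N) (VV N.subtype) :=
    proj_via N.subtype N.subtype_injective
  classical
  have h3 : Module.Projective (MonoidAlgebra ℤ ↥N) (X →₀ VV N.subtype) :=
    Module.Projective.of_equiv' (finsuppLEquivDirectSum (MonoidAlgebra ℤ ↥N) (VV N.subtype) X).symm
  have hsm : ∀ (r : MonoidAlgebra ℤ ↥N) (x : X →₀ VV N.subtype),
      (show X →₀ MonoidAlgebra ℤ G from (r • x)) =
        (inc N.subtype r) • (show X →₀ MonoidAlgebra ℤ G from x) :=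
    fun _ _ => Finsupp.ext fun _ => rfl
  have hinc : ∀ (r : MonoidAlgebra ℤ ↥N) (x : (RS N).obj X), r • x =
      (show (RS N).obj X from (inc N.subtype r) • (show X from x)) := fun _ _ => rfl
  let a : ((RS N).obj X) →ₗ[MonoidAlgebra ℤ ↥N] (X →₀ VV N.subtype) :=
    { toFun := fun x => t x
      map_add' := fun x y => t.map_add x y
      map_smul' := fun r x => by
        rw [hinc]
        exact (t.map_smul (inc N.subtype r) x).trans (Finsupp.ext fun _ => rfl) }
  let b : (X →₀ VV N.subtype) →ₗ[MonoidAlgebra ℤ ↥N] ((RS N).obj X) :=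
    { toFun := fun y => Finsupp.linearCombination (MonoidAlgebra ℤ G) (id : X → X) y
      map_add' := fun x y => (Finsupp.linearCombination (MonoidAlgebra ℤ G) (id : X → X)).map_add x y
      map_smul' := fun r x =>
        (congrArg (Finsupp.linearCombination (MonoidAlgebra ℤ G) (id : X → X)) (hsm r x)).trans
          ((Finsupp.linearCombination (MonoidAlgebra ℤ G) (id : X → X)).map_smul
            (inc N.subtype r) x) }
  have h4 : Module.Projective (MonoidAlgebra ℤ ↥N) ((RS N).obj X) := by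
    refine Module.Projective.of_split a b ?_
    apply LinearMap.ext
    intro x
    exact ht x
  exact (IsProjective.iff_projective (R := MonoidAlgebra ℤ ↥N) ((RS N).obj X)).1 h4

/-- the second functor -/
noncomputable abbrev F2 : ModuleCat.{0} (MonoidAlgebra ℤ G) ⥤ ModuleCat.{0} U :=
  RS N ⋙ bcF (c.comp N.subtype)

theorem RS_smul (X : ModuleCat.{0} (MonoidAlgebra ℤ G)) (g : ↥N) (x : (RS N).obj X) :
    (MonoidAlgebra.single g (1 : ℤ) : MonoidAlgebra ℤ ↥N) • x =
      (show (RS N).obj X from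
        ((MonoidAlgebra.single (g : G) (1 : ℤ) : MonoidAlgebra ℤ G) • (show X from x))) := by
  show (inc N.subtype (MonoidAlgebra.single g (1 : ℤ))) • (show X from x) = _
  rw [inc_single]
  rfl

/-- one term of the transfer, before passing to the quotient -/
noncomputable def Ph (X : ModuleCat.{0} (MonoidAlgebra ℤ G)) (s : G) :
    U ⊗[ℤ] X →ₗ[U] BCG (c.comp N.subtype) ((RS N).obj X) :=
  (bcR (c.comp N.subtype) ((RS N).obj X)).mkQ.comp
    (TensorProduct.AlgebraTensorModule.map (LinearMap.toSpanSingleton U U (c s))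
      ((smulAddHom (MonoidAlgebra ℤ G) X (MonoidAlgebra.single s⁻¹ (1 : ℤ))).toIntLinearMap :
        X →ₗ[ℤ] ((RS N).obj X)))

theorem Ph_tmul (X : ModuleCat.{0} (MonoidAlgebra ℤ G)) (s : G) (u : U) (p : X) :
    Ph c N X s (u ⊗ₜ[ℤ] p) = Submodule.Quotient.mk ((u * c s) ⊗ₜ[ℤ]
      (show (RS N).obj X from (MonoidAlgebra.single s⁻¹ (1 : ℤ) : MonoidAlgebra ℤ G) • p)) := by
  rfl

/-- independence of the representative -/
theorem Ph_mul (X : ModuleCat.{0} (MonoidAlgebra ℤ G)) (s : G) (n : ↥N) :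
    Ph c N X (s * n) = Ph c N X s := by
  apply TensorProduct.AlgebraTensorModule.ext
  intro u p
  rw [Ph_tmul, Ph_tmul]
  have h1 : (Submodule.Quotient.mk ((u * c s * (c.comp N.subtype) n) ⊗ₜ[ℤ]
      (show (RS N).obj X from (MonoidAlgebra.single (s * n)⁻¹ (1 : ℤ) : MonoidAlgebra ℤ G) • p)) :
      BCG (c.comp N.subtype) ((RS N).obj X)) =
      Submodule.Quotient.mk ((u * c s) ⊗ₜ[ℤ] ((MonoidAlgebra.single n (1 : ℤ) : MonoidAlgebra ℤ ↥N) •
        (show (RS N).obj X from (MonoidAlgebra.single (s * n)⁻¹ (1 : ℤ) : MonoidAlgebra ℤ G) • p))) := by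
    rw [Submodule.Quotient.eq]
    exact Submodule.subset_span ⟨_, _, _, rfl⟩
  have h2 : u * c (s * n) = u * c s * (c.comp N.subtype) n := by
    rw [map_mul, ← mul_assoc]
    rfl
  rw [h2, h1, RS_smul]
  congr 2
  show (MonoidAlgebra.single (n : G) (1 : ℤ) : MonoidAlgebra ℤ G) •
    ((MonoidAlgebra.single (s * n)⁻¹ (1 : ℤ) : MonoidAlgebra ℤ G) • p) = _
  rw [smul_smul, MonoidAlgebra.single_mul_single]
  congr 2
  · group
  
theorem Ph_mk (X : ModuleCat.{0} (MonoidAlgebra ℤ G)) (s t : G)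
    (h : (QuotientGroup.mk s : G ⧸ N) = QuotientGroup.mk t) : Ph c N X s = Ph c N X t := by
  rw [QuotientGroup.eq] at h
  have := Ph_mul c N X s ⟨s⁻¹ * t, h⟩
  rw [← this]
  congr 1
  show s * (s⁻¹ * t) = t
  group

theorem Ph_rel (X : ModuleCat.{0} (MonoidAlgebra ℤ G)) (s g : G) (u : U) (p : X) :
    Ph c N X s ((u * c g) ⊗ₜ[ℤ] p) =
      Ph c N X (g * s) (u ⊗ₜ[ℤ] ((MonoidAlgebra.single g (1 : ℤ) : MonoidAlgebra ℤ G) • p)) := by
  have e : (g * s)⁻¹ * g = s⁻¹ := by group
  rw [Ph_tmul, Ph_tmul, map_mul, mul_assoc, smul_smul, MonoidAlgebra.single_mul_single, mul_one, e]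

variable [Fintype (G ⧸ N)]

/-- the transfer before passing to the quotient -/
noncomputable def Tr0 (X : ModuleCat.{0} (MonoidAlgebra ℤ G)) :
    U ⊗[ℤ] X →ₗ[U] BCG (c.comp N.subtype) ((RS N).obj X) :=
  ∑ q : G ⧸ N, Ph c N X q.out

theorem Tr0_rel (X : ModuleCat.{0} (MonoidAlgebra ℤ G)) :
    bcR c X ≤ LinearMap.ker (Tr0 c N X) := by
  rw [bcR, Submodule.span_le]
  rintro z ⟨u, g, p, rfl⟩
  show Tr0 c N X _ = 0
  rw [map_sub, sub_eq_zero]
  unfold Tr0
  rw [LinearMap.sum_apply, LinearMap.sum_apply]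
  rw [← Equiv.sum_comp (MulAction.toPerm g) (fun q : G ⧸ N => Ph c N X q.out (u ⊗ₜ[ℤ] _))]
  refine Finset.sum_congr rfl fun q _ => ?_
  rw [Ph_rel]
  congr 1
  apply Ph_mk
  rw [QuotientGroup.out_eq']
  show _ = g • q
  conv_rhs => rw [← QuotientGroup.out_eq' q]
  rfl

/-- the transfer -/
noncomputable def Tr (X : ModuleCat.{0} (MonoidAlgebra ℤ G)) :
    BCG c X →ₗ[U] BCG (c.comp N.subtype) ((RS N).obj X) :=
  (bcR c X).liftQ (Tr0 c N X) (Tr0_rel c N X)

theorem Tr_mk (X : ModuleCat.{0} (MonoidAlgebra ℤ G)) (p : X) :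
    Tr c N X (Submodule.Quotient.mk ((1 : U) ⊗ₜ[ℤ] p)) = ∑ q : G ⧸ N,
      Submodule.Quotient.mk ((1 * c q.out) ⊗ₜ[ℤ]
      (show (RS N).obj X from (MonoidAlgebra.single q.out⁻¹ (1 : ℤ) : MonoidAlgebra ℤ G) • p)) := by
  show Tr0 c N X _ = _
  unfold Tr0
  rw [LinearMap.sum_apply]
  rfl

/-- the transfer as a natural transformation -/
noncomputable def TR : bcF c ⟶ F2 c N where
  app X := ModuleCat.ofHom (Tr c N X)
  naturality X Y f := by
    ext1
    apply bc_ind
    intro p
    show Tr c N Y (bcM c f.hom (Submodule.Quotient.mk ((1 : U) ⊗ₜ[ℤ] p))) =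
      bcM (c.comp N.subtype) ((RS N).map f).hom (Tr c N X (Submodule.Quotient.mk ((1 : U) ⊗ₜ[ℤ] p)))
    rw [bcM_mk, Tr_mk, Tr_mk, map_sum]
    refine Finset.sum_congr rfl fun q _ => ?_
    rw [bcM_mk]
    congr 2
    show (MonoidAlgebra.single q.out⁻¹ (1 : ℤ) : MonoidAlgebra ℤ G) • f.hom p =
      f.hom ((MonoidAlgebra.single q.out⁻¹ (1 : ℤ) : MonoidAlgebra ℤ G) • p)
    rw [map_smul]

end

section

variable {G U : Type} [Group G] [Ring U] (c : G →* U) (N : Subgroup G)

/-- the projection -/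
noncomputable def Pr (X : ModuleCat.{0} (MonoidAlgebra ℤ G)) :
    BCG (c.comp N.subtype) ((RS N).obj X) →ₗ[U] BCG c X :=
  (bcR (c.comp N.subtype) ((RS N).obj X)).liftQ
    ((bcR c X).mkQ.comp (TensorProduct.AlgebraTensorModule.map (LinearMap.id : U →ₗ[U] U)
      ((AddMonoidHom.id X).toIntLinearMap : ((RS N).obj X) →ₗ[ℤ] X)))
    (by
      rw [bcR, Submodule.span_le]
      rintro z ⟨u, g, p, rfl⟩
      show _ = _
      rw [RS_smul]
      show (Submodule.Quotient.mk ((u * c g) ⊗ₜ[ℤ] (show X from p) -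
        u ⊗ₜ[ℤ] ((MonoidAlgebra.single (g : G) (1 : ℤ) : MonoidAlgebra ℤ G) • (show X from p))) :
          BCG c X) = 0
      rw [Submodule.Quotient.mk_eq_zero]
      exact Submodule.subset_span ⟨_, _, _, rfl⟩)

theorem Pr_mk (X : ModuleCat.{0} (MonoidAlgebra ℤ G)) (u : U) (p : X) :
    Pr c N X (Submodule.Quotient.mk (u ⊗ₜ[ℤ] (show (RS N).obj X from p))) =
      Submodule.Quotient.mk (u ⊗ₜ[ℤ] p) := by
  rfl

/-- the projection as a natural transformation -/
noncomputable def PR : F2 c N ⟶ bcF c where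
  app X := ModuleCat.ofHom (Pr c N X)
  naturality X Y f := by
    ext1
    apply bc_ind
    intro p
    rfl

/-- multiplication by a central element -/
noncomputable def Mu (v : U) (hv : ∀ u : U, v * u = u * v)
    (X : ModuleCat.{0} (MonoidAlgebra ℤ G)) : BCG c X →ₗ[U] BCG c X where
  toFun x := v • x
  map_add' x y := smul_add v x y
  map_smul' u x := by
    rw [RingHom.id_apply, smul_smul, smul_smul, hv]

/-- multiplication by a central element as a natural transformation -/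
noncomputable def MU (v : U) (hv : ∀ u : U, v * u = u * v) : bcF c ⟶ bcF c where
  app X := ModuleCat.ofHom (Mu c v hv X)
  naturality X Y f := by
    ext1
    apply LinearMap.ext
    intro x
    exact (LinearMap.map_smul (bcM c f.hom) v x).symm

theorem comp_id [Fintype (G ⧸ N)] (v : U) (hv : ∀ u : U, v * u = u * v)
    (h1 : v * ((Fintype.card (G ⧸ N) : ℕ) : U) = 1) : TR c N ≫ PR c N ≫ MU c v hv = 𝟙 (bcF c) := by
  ext1
  funext X
  ext1
  apply bc_ind
  intro p
  show v • (Pr c N X (Tr c N X (Submodule.Quotient.mk ((1 : U) ⊗ₜ[ℤ] p)))) =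
    Submodule.Quotient.mk ((1 : U) ⊗ₜ[ℤ] p)
  rw [Tr_mk, map_sum]
  have h2 : ∀ q : G ⧸ N, Pr c N X (Submodule.Quotient.mk ((1 * c q.out) ⊗ₜ[ℤ]
      (show (RS N).obj X from (MonoidAlgebra.single q.out⁻¹ (1 : ℤ) : MonoidAlgebra ℤ G) • p))) =
      Submodule.Quotient.mk ((1 : U) ⊗ₜ[ℤ] p) := by
    intro q
    rw [Pr_mk]
    have h3 : (Submodule.Quotient.mk ((1 * c q.out) ⊗ₜ[ℤ]
      ((MonoidAlgebra.single q.out⁻¹ (1 : ℤ) : MonoidAlgebra ℤ G) • p)) : BCG c X) =
      Submodule.Quotient.mk ((1 : U) ⊗ₜ[ℤ] ((MonoidAlgebra.single q.out (1 : ℤ) : MonoidAlgebra ℤ G) •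
        ((MonoidAlgebra.single q.out⁻¹ (1 : ℤ) : MonoidAlgebra ℤ G) • p))) := by
      rw [Submodule.Quotient.eq]
      exact Submodule.subset_span ⟨_, _, _, rfl⟩
    rw [h3, smul_smul, MonoidAlgebra.single_mul_single, mul_inv_cancel, mul_one,
      ← MonoidAlgebra.one_def, one_smul]
  rw [Finset.sum_congr rfl fun q _ => h2 q, Finset.sum_const, Finset.card_univ,
    ← Nat.cast_smul_eq_nsmul U, smul_smul, h1, one_smul]

end

section

variable {G U : Type} [Group G] [Ring U] (c : G →* U) (N : Subgroup G)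

theorem aug_inc : (augG G).comp (inc N.subtype) = augG ↥N := by
  apply MonoidAlgebra.ringHom_ext
  · intro z
    simp [augG, inc]
  · intro g
    simp [augG, inc]

/-- the trivial module -/
noncomputable def trivIso : (RS N).obj (trivG G) ≅ trivG ↥N where
  hom := ModuleCat.ofHom (X := (RS N).obj (trivG G)) (Y := trivG ↥N)
    { toFun := fun x => x, map_add' := fun _ _ => rfl, map_smul' := fun r x => by
        show (augG G (inc N.subtype r)) • (show ℤ from x) = (augG ↥N r) • (show ℤ from x)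
        rw [← aug_inc]
        rfl }
  inv := ModuleCat.ofHom (X := trivG ↥N) (Y := (RS N).obj (trivG G))
    { toFun := fun x => x, map_add' := fun _ _ => rfl, map_smul' := fun r x => by
        show (augG ↥N r) • (show ℤ from x) = (augG G (inc N.subtype r)) • (show ℤ from x)
        rw [← aug_inc]
        rfl }
  hom_inv_id := rfl
  inv_hom_id := rfl

theorem t_core (h0 : N.index ≠ 0) (h1 : IsUnit ((N.index : ℕ) : U)) (n : ℕ)
    (h2 : Limits.IsZero (((bcF (c.comp N.subtype)).leftDerived n).obj (trivG ↥N))) :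
    Limits.IsZero (((bcF c).leftDerived n).obj (trivG G)) := by
  have := RS_hom N
  have := RS_proj N
  let _ : Fintype (G ⧸ N) := Subgroup.fintypeOfIndexNeZero h0
  obtain ⟨v, hv⟩ := h1
  have hcard : N.index = Fintype.card (G ⧸ N) := by
    rw [Subgroup.index_eq_card, Nat.card_eq_fintype_card]
  have hcent : ∀ u : U, ((v⁻¹ : Uˣ) : U) * u = u * ((v⁻¹ : Uˣ) : U) := by
    intro u
    have h3 : (v : U) * u = u * v := by
      rw [hv]
      exact (Nat.cast_commute _ u).eq
    calc ((v⁻¹ : Uˣ) : U) * u = ((v⁻¹ : Uˣ) : U) * (u * v) * ((v⁻¹ : Uˣ) : U) := by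
          rw [mul_assoc, mul_assoc, Units.mul_inv, mul_one]
      _ = ((v⁻¹ : Uˣ) : U) * (v * u) * ((v⁻¹ : Uˣ) : U) := by rw [h3]
      _ = u * ((v⁻¹ : Uˣ) : U) := by rw [← mul_assoc, Units.inv_mul, one_mul]
  have hone : ((v⁻¹ : Uˣ) : U) * ((Fintype.card (G ⧸ N) : ℕ) : U) = 1 := by
    rw [← hcard, ← hv, Units.inv_mul]
  have hid := comp_id c N _ hcent hone
  have hz : Limits.IsZero (((F2 c N).leftDerived n).obj (trivG G)) := by
    let P := projectiveResolution (trivG G)
    let Q := (RS N).mapProjectiveResolution P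
    have i1 := P.isoLeftDerivedObj (F2 c N) n
    have i2 := Q.isoLeftDerivedObj (bcF (c.comp N.subtype)) n
    have i3 := ((bcF (c.comp N.subtype)).leftDerived n).mapIso (trivIso N)
    refine (h2.of_iso i3).of_iso (i1.trans ?_)
    exact i2.symm
  have h4 : NatTrans.leftDerived (TR c N ≫ PR c N ≫ MU c _ hcent) n = 𝟙 _ := by
    rw [hid, NatTrans.leftDerived_id]
  rw [NatTrans.leftDerived_comp] at h4
  have h5 := congrArg (fun α => NatTrans.app α (trivG G)) h4
  rw [Limits.IsZero.iff_id_eq_zero]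
  have h6 : (NatTrans.leftDerived (TR c N) n).app (trivG G) ≫
      (NatTrans.leftDerived (PR c N ≫ MU c _ hcent) n).app (trivG G) = 𝟙 _ := h5
  rw [← h6, hz.eq_of_tgt ((NatTrans.leftDerived (TR c N) n).app (trivG G)) 0,
    Limits.zero_comp]

end

theorem t_FINI : U722.FF.S_FINI :=
  fun _ _ _ _ c N h0 h1 n h2 => t_core c N h0 h1 n h2

end Pool.Agent.U571.LBP
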